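import Pool.Agent.Helper19.Caustic.Main

/-!
# Caustics by reflection in a sequence of confocal ellipses: definitions
-/

set_option autoImplicit false

namespace Pool.Agent.Y294.CC

open Pool.Agent.Helper19.Caustic
open scoped ContDiff

/-- Two ellipses are confocal: they have the same centre and the same foci. -/
def Confocal (γ γ' : Ellipse) : Prop := γ.centre = γ'.centre ∧ γ.foci = γ'.foci

/-- The light ray (starting point, direction) after `n` reflections, in the ellipses
`E 0, E 1, …, E (n - 1)` in this order, when the light is emitted at the source `S` in the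
direction `(cos φ, sin φ)`. The next reflection takes place where the ray leaves the region bounded
by the next ellipse; the other ellipses are transparent meanwhile. -/
noncomputable def ray (E : ℕ → Ellipse) (S : Plane) : ℕ → ℝ → Plane × Plane
  | 0, φ => (S, (Real.cos φ, Real.sin φ))
  | n + 1, φ =>
    ((E n).hit (ray E S n φ).1 (ray E S n φ).2,
      reflect (ray E S n φ).2 ((E n).normal ((E n).hit (ray E S n φ).1 (ray E S n φ).2)))

/-- The line carrying the ray after `n` reflections. -/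
noncomputable def line (E : ℕ → Ellipse) (S : Plane) (n : ℕ) (φ : ℝ) : Fin 3 → ℝ :=
  lineOf (ray E S n φ).1 (ray E S n φ).2

/-- The envelope of the family of lines: homogeneous coordinates `(x : y : z)` of the point where
the line of parameter `φ` touches the envelope. This is the `n`th caustic by reflection,
parametrised by `φ`, as a curve in the projective plane. -/
noncomputable def caustic (E : ℕ → Ellipse) (S : Plane) (n : ℕ) (φ : ℝ) : Fin 3 → ℝ :=
  crossProduct (line E S n φ) (deriv (line E S n) φ)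

/-- The caustic is a smooth closed curve in the projective plane, parametrised by the circle. -/
def IsClosedCurve (E : ℕ → Ellipse) (S : Plane) (n : ℕ) : Prop :=
  ContDiff ℝ ∞ (caustic E S n) ∧ (∀ φ, caustic E S n φ ≠ 0) ∧
    ∀ φ, caustic E S n (φ + 2 * Real.pi) = caustic E S n φ

/-- A cusp: the parametrisation of the caustic (as a curve in the projective plane) has zero
derivative at `φ`, that is, the derivative of the homogeneous coordinate vector is parallel to the
vector itself. -/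
def IsCusp (E : ℕ → Ellipse) (S : Plane) (n : ℕ) (φ : ℝ) : Prop :=
  ¬ LinearIndependent ℝ ![caustic E S n φ, deriv (caustic E S n) φ]

/-- An ordinary (semicubical) cusp. -/
def IsOrdinaryCusp (E : ℕ → Ellipse) (S : Plane) (n : ℕ) (φ : ℝ) : Prop :=
  IsCusp E S n φ ∧ LinearIndependent ℝ ![caustic E S n φ, deriv (deriv (caustic E S n)) φ,
    deriv (deriv (deriv (caustic E S n))) φ]

/-- The caustic has exactly four cusps (the parameter `φ` runs over one period). -/
def HasExactlyFourCusps (E : ℕ → Ellipse) (S : Plane) (n : ℕ) : Prop :=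
  {φ | φ ∈ Set.Ico 0 (2 * Real.pi) ∧ IsCusp E S n φ}.encard = 4

/-- The signed area spanned by two vectors. -/
def area (v w : Plane) : ℝ := v.1 * w.2 - v.2 * w.1

/-- The line through `S` with direction `(cos φ, sin φ)` bisects one of the two angles formed by
the lines `SA` and `SB` (for `A, B ≠ S`): the oriented angle from `SA` to this line is the one from
this line to `SB`, modulo `π`. -/
def Bisects (S A B : Plane) (φ : ℝ) : Prop :=
  area (A - S) (Real.cos φ, Real.sin φ) * dot (Real.cos φ, Real.sin φ) (B - S) =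
    dot (A - S) (Real.cos φ, Real.sin φ) * area (Real.cos φ, Real.sin φ) (B - S)

/-! ## Confocal ellipses -/

/-- the determinant of the quadratic form -/
def dd (γ : Ellipse) : ℝ := γ.p * γ.r - γ.q ^ 2

theorem dd_pos (γ : Ellipse) : 0 < dd γ := γ.hdet

theorem conf_data {γ γ' : Ellipse} (h : Confocal γ γ') : ∃ μ : ℝ, γ'.centre = γ.centre ∧
    γ'.p / dd γ' = γ.p / dd γ + μ ∧ γ'.r / dd γ' = γ.r / dd γ + μ ∧
    γ'.q / dd γ' = γ.q / dd γ := by
  have hd := dd_pos γ
  have hd' := dd_pos γ'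
  obtain ⟨z, hz⟩ := IsAlgClosed.exists_pow_nat_eq
    (⟨(γ.r - γ.p) / dd γ, 2 * (-γ.q / dd γ)⟩ : ℂ) (n := 2) two_pos
  have h1 := congrArg Complex.re hz
  have h2 := congrArg Complex.im hz
  rw [pow_two, Complex.mul_re] at h1
  rw [pow_two, Complex.mul_im] at h2
  simp only at h1 h2
  have e1 : (γ.r - γ.p) / dd γ * dd γ = γ.r - γ.p := div_mul_cancel₀ _ hd.ne'
  have e2 : -γ.q / dd γ * dd γ = -γ.q := div_mul_cancel₀ _ hd.ne'
  have hX : ((γ.centre.1 + z.re, γ.centre.2 + z.im) : Plane) ∈ γ.foci := by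
    refine ⟨?_, ?_⟩
    · change dd γ * _ = _
      rw [← e1, ← h1]
      simp only
      ring
    · change dd γ * _ = _
      have h3 : z.re * z.im = -γ.q / dd γ := by linarith
      rw [← e2, ← h3]
      simp only
      ring
  rw [h.2] at hX
  obtain ⟨g1, g2⟩ := hX
  change dd γ' * _ = _ at g1
  change dd γ' * _ = _ at g2
  rw [← h.1] at g1 g2
  simp only [add_sub_cancel_left] at g1 g2
  have k1 : (γ'.r - γ'.p) / dd γ' = (γ.r - γ.p) / dd γ := by
    rw [div_eq_iff hd'.ne', ← g1]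
    linear_combination (dd γ') * h1
  have k2 : γ'.q / dd γ' = γ.q / dd γ := by
    have h3 : z.re * z.im = -γ.q / dd γ := by linarith
    rw [div_eq_iff hd'.ne']
    rw [h3] at g2
    linear_combination g2
  refine ⟨γ'.p / dd γ' - γ.p / dd γ, h.1.symm, by ring, ?_, k2⟩
  rw [sub_div, sub_div] at k1
  linarith

theorem Confocal.symm' {γ γ' : Ellipse} (h : Confocal γ γ') : Confocal γ' γ := ⟨h.1.symm, h.2.symm⟩

theorem Confocal.trans' {γ γ' γ'' : Ellipse} (h : Confocal γ γ') (h' : Confocal γ' γ'') :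
    Confocal γ γ'' := ⟨h.1.trans h'.1, h.2.trans h'.2⟩

theorem Confocal.refl' (γ : Ellipse) : Confocal γ γ := ⟨rfl, rfl⟩

/-- the inverse of the determinant in terms of the scaled form -/
theorem dd_inv (γ : Ellipse) : γ.p / dd γ * (γ.r / dd γ) - (γ.q / dd γ) ^ 2 = 1 / dd γ := by
  have h := (dd_pos γ).ne'
  field_simp
  unfold dd
  ring

/-- `Joachimsthal / det` changes by a constant in a confocal family -/
theorem II_conf {γ γ' : Ellipse} {μ : ℝ} (hc : γ'.centre = γ.centre)
    (hp : γ'.p / dd γ' = γ.p / dd γ + μ) (hr : γ'.r / dd γ' = γ.r / dd γ + μ)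
    (hq : γ'.q / dd γ' = γ.q / dd γ) (X u : Plane) :
    II γ' X u / dd γ' = II γ X u / dd γ + μ * (u.1 ^ 2 + u.2 ^ 2) := by
  have key : ∀ δ : Ellipse, II δ X u / dd δ = (δ.p / dd δ) * u.1 ^ 2 +
      2 * (δ.q / dd δ) * u.1 * u.2 + (δ.r / dd δ) * u.2 ^ 2 -
      (u.1 * (X.2 - δ.centre.2) - u.2 * (X.1 - δ.centre.1)) ^ 2 := by
    intro δ
    have h := (dd_pos δ).ne'
    rw [div_eq_iff h]
    have e1 : δ.p / dd δ * dd δ = δ.p := div_mul_cancel₀ _ h
    have e2 : δ.q / dd δ * dd δ = δ.q := div_mul_cancel₀ _ h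
    have e3 : δ.r / dd δ * dd δ = δ.r := div_mul_cancel₀ _ h
    have e4 : ((δ.p / dd δ) * u.1 ^ 2 +
      2 * (δ.q / dd δ) * u.1 * u.2 + (δ.r / dd δ) * u.2 ^ 2 -
      (u.1 * (X.2 - δ.centre.2) - u.2 * (X.1 - δ.centre.1)) ^ 2) * dd δ =
      (δ.p / dd δ * dd δ) * u.1 ^ 2 + 2 * (δ.q / dd δ * dd δ) * u.1 * u.2 +
      (δ.r / dd δ * dd δ) * u.2 ^ 2 -
      (u.1 * (X.2 - δ.centre.2) - u.2 * (X.1 - δ.centre.1)) ^ 2 * dd δ := by ring
    rw [e4, e1, e2, e3]
    simp only [II, dot, qf, Ellipse.normal, Ellipse.F, dd]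
    ring
  rw [key γ', key γ, hp, hq, hr, hc]
  ring

/-- `F` in terms of the scaled form -/
theorem F_scaled (γ : Ellipse) (X : Plane) : γ.F X =
    (γ.p / dd γ * (X.1 - γ.centre.1) ^ 2 + 2 * (γ.q / dd γ) * (X.1 - γ.centre.1) *
      (X.2 - γ.centre.2) + γ.r / dd γ * (X.2 - γ.centre.2) ^ 2) /
    (γ.p / dd γ * (γ.r / dd γ) - (γ.q / dd γ) ^ 2) := by
  rw [dd_inv]
  have h := (dd_pos γ).ne'
  unfold Ellipse.F
  field_simp

/-- nestedness -/
theorem F_mono {γ γ' : Ellipse} {μ : ℝ} (hc : γ'.centre = γ.centre)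
    (hp : γ'.p / dd γ' = γ.p / dd γ + μ) (hr : γ'.r / dd γ' = γ.r / dd γ + μ)
    (hq : γ'.q / dd γ' = γ.q / dd γ) (hμ : 0 ≤ μ) (X : Plane) : γ'.F X ≤ γ.F X := by
  have h1 := dd_inv γ
  have h2 := dd_inv γ'
  have p1 : 0 < 1 / dd γ := one_div_pos.2 (dd_pos γ)
  have p2 : 0 < 1 / dd γ' := one_div_pos.2 (dd_pos γ')
  rw [F_scaled γ', F_scaled γ, hp, hq, hr, hc]
  rw [hp, hq, hr] at h2
  rw [← h1] at p1
  rw [← h2] at p2
  have hP : 0 < γ.p / dd γ := div_pos γ.hp (dd_pos γ)
  set P := γ.p / dd γ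
  set Q := γ.q / dd γ
  set R := γ.r / dd γ
  set x := X.1 - γ.centre.1
  set y := X.2 - γ.centre.2
  have hN : 0 ≤ P * x ^ 2 + 2 * Q * x * y + R * y ^ 2 := by
    have e : P * (P * x ^ 2 + 2 * Q * x * y + R * y ^ 2) =
        (P * x + Q * y) ^ 2 + (P * R - Q ^ 2) * y ^ 2 := by ring
    have e2 : 0 ≤ P * (P * x ^ 2 + 2 * Q * x * y + R * y ^ 2) := by
      rw [e]
      have := mul_nonneg p1.le (sq_nonneg y)
      have := sq_nonneg (P * x + Q * y)
      linarith
    exact (mul_nonneg_iff_of_pos_left hP).1 e2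
  rw [div_le_div_iff₀ p2 p1]
  have e : (P * x ^ 2 + 2 * Q * x * y + R * y ^ 2) * ((P + μ) * (R + μ) - Q ^ 2) -
      ((P + μ) * x ^ 2 + 2 * Q * x * y + (R + μ) * y ^ 2) * (P * R - Q ^ 2) =
      μ * ((P * x + Q * y) ^ 2 + (Q * x + R * y) ^ 2 +
        μ * (P * x ^ 2 + 2 * Q * x * y + R * y ^ 2)) := by ring
  have e2 : 0 ≤ μ * ((P * x + Q * y) ^ 2 + (Q * x + R * y) ^ 2 +
        μ * (P * x ^ 2 + 2 * Q * x * y + R * y ^ 2)) := by
    have := mul_nonneg hμ hN
    have := sq_nonneg (P * x + Q * y)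
    have := sq_nonneg (Q * x + R * y)
    exact mul_nonneg hμ (by linarith)
  linarith

/-- if one point is farther out for `γ'`, then all are -/
theorem F_nested {γ γ' : Ellipse} (h : Confocal γ γ') {X : Plane} (hX : γ.F X < γ'.F X)
    (Y : Plane) : γ.F Y ≤ γ'.F Y := by
  obtain ⟨μ, hc, hp, hr, hq⟩ := conf_data h
  have hμ : μ < 0 := by
    by_contra hh
    push Not at hh
    exact absurd (F_mono hc hp hr hq hh X) (not_le.2 hX)
  exact F_mono (γ := γ') (γ' := γ) (μ := -μ) hc.symm (by linarith) (by linarith) hq.symm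
    (by linarith) Y

/-! ## The point of reflection -/

theorem hit_eq' (γ : Ellipse) {X u : Plane} (hX : γ.F X ≤ 1 ∨ dot u (γ.normal X) ≤ 0)
    (hI : 0 ≤ II γ X u) (hu : u.1 ^ 2 + u.2 ^ 2 = 1) : γ.hit X u = X + tt γ X u • u := by
  have ha := qf_pos_unit γ hu
  set a := qf γ u with hadef
  set b := dot u (γ.normal X) with hbdef
  set c := γ.F X with hcdef
  have hIe : II γ X u = b ^ 2 + a * (1 - c) := rfl
  set R := Real.sqrt (II γ X u) with hR
  have hRsq : R ^ 2 = b ^ 2 + a * (1 - c) := by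
    rw [← hIe]; exact Real.sq_sqrt hI
  have hR0 : 0 ≤ R := Real.sqrt_nonneg _
  have ht : tt γ X u = (-b + R) / a := rfl
  have ht0 : 0 ≤ tt γ X u := by
    rw [ht]
    apply div_nonneg _ ha.le
    rcases hX with hX | hX
    · have hI0 : b ^ 2 ≤ II γ X u := by
        rw [hIe]
        have : 0 ≤ a * (1 - c) := mul_nonneg ha.le (by linarith)
        linarith
      have hRb : |b| ≤ R := by
        rw [← Real.sqrt_sq_eq_abs]; exact Real.sqrt_le_sqrt hI0
      have hRb1 := (abs_le.1 hRb).2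
      linarith
    · linarith
  have hgr : IsGreatest {t : ℝ | 0 ≤ t ∧ X + t • u ∈ γ.disc} (tt γ X u) := by
    constructor
    · refine ⟨ht0, ?_⟩
      change γ.F (X + tt γ X u • u) ≤ 1
      rw [F_add, ← hadef, ← hbdef, ← hcdef]
      have h1 : tt γ X u * a = -b + R := by rw [ht, div_mul_cancel₀ _ ha.ne']
      have h2 : a * (c + 2 * tt γ X u * b + tt γ X u ^ 2 * a - 1) = 0 := by
        linear_combination (tt γ X u * a + b + R) * h1 + hRsq
      rcases mul_eq_zero.1 h2 with h3 | h3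
      · exact absurd h3 ha.ne'
      · linarith
    · rintro t ⟨h1, h2⟩
      change γ.F (X + t • u) ≤ 1 at h2
      rw [F_add, ← hadef, ← hbdef, ← hcdef] at h2
      rw [ht, le_div_iff₀ ha]
      by_contra h3
      push Not at h3
      have h4 : a * (a * t ^ 2 + 2 * b * t - (1 - c)) = (a * t + b - R) * (a * t + b + R) := by
        linear_combination hRsq
      have h5 : 0 < a * t + b - R := by linarith
      have h6 : 0 < a * t + b + R := by linarith
      have h7 := mul_pos h5 h6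
      rw [← h4] at h7
      have h8 := (mul_pos_iff_of_pos_left ha).1 h7
      nlinarith
  unfold Ellipse.hit
  rw [hgr.csSup_eq]

theorem F_hit' (γ : Ellipse) {X u : Plane} (hX : γ.F X ≤ 1 ∨ dot u (γ.normal X) ≤ 0)
    (hI : 0 ≤ II γ X u) (hu : u.1 ^ 2 + u.2 ^ 2 = 1) : γ.F (γ.hit X u) = 1 := by
  rw [hit_eq' γ hX hI hu, F_add]
  have ha := qf_pos_unit γ hu
  have hRsq := Real.sq_sqrt hI
  have h1 : tt γ X u * qf γ u = -dot u (γ.normal X) + Real.sqrt (II γ X u) := by
    unfold tt; rw [div_mul_cancel₀ _ ha.ne']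
  have h2 : qf γ u * (γ.F X + 2 * tt γ X u * dot u (γ.normal X) + tt γ X u ^ 2 * qf γ u - 1) =
      0 := by
    have h3 : II γ X u = dot u (γ.normal X) ^ 2 + qf γ u * (1 - γ.F X) := rfl
    linear_combination (tt γ X u * qf γ u + dot u (γ.normal X) + Real.sqrt (II γ X u)) * h1 +
      hRsq + h3
  rcases mul_eq_zero.1 h2 with h3 | h3
  · exact absurd h3 ha.ne'
  · linarith

theorem normal_hit' (γ : Ellipse) {X u : Plane} (hX : γ.F X ≤ 1 ∨ dot u (γ.normal X) ≤ 0)
    (hI : 0 ≤ II γ X u) (hu : u.1 ^ 2 + u.2 ^ 2 = 1) :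
    dot u (γ.normal (γ.hit X u)) = Real.sqrt (II γ X u) := by
  rw [hit_eq' γ hX hI hu, normal_add]
  have ha := qf_pos_unit γ hu
  have h1 : tt γ X u * qf γ u = -dot u (γ.normal X) + Real.sqrt (II γ X u) := by
    unfold tt; rw [div_mul_cancel₀ _ ha.ne']
  rw [h1]; ring

/-- after a reflection in `γ` the ray goes inwards with respect to all confocal ellipses not
containing its starting point -/
theorem fwd_of {γ γ' : Ellipse} (h : Confocal γ γ') {X u : Plane} (hX : γ.F X = 1)
    (hu : u.1 ^ 2 + u.2 ^ 2 = 1) (hb : dot u (γ.normal X) < 0) (hI : 0 < II γ' X u) :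
    γ'.F X ≤ 1 ∨ dot u (γ'.normal X) ≤ 0 := by
  by_contra hh
  push Not at hh
  obtain ⟨h1, h2⟩ := hh
  have ha := qf_pos_unit γ' hu
  have ha2 := qf_pos_unit γ hu
  set b := dot u (γ'.normal X) with hbd
  set a := qf γ' u with had
  have hn := F_nested h (X := X) (by rw [hX]; exact h1) (X + (-(b / a)) • u)
  have e1 : γ'.F (X + (-(b / a)) • u) < 1 := by
    rw [F_add, ← hbd, ← had]
    have hIe : II γ' X u = b ^ 2 + a * (1 - γ'.F X) := rfl
    rw [hIe] at hI
    have e : γ'.F X + 2 * -(b / a) * b + (-(b / a)) ^ 2 * a = γ'.F X - b ^ 2 / a := by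
      field_simp
      ring
    rw [e]
    have : 1 - (γ'.F X - b ^ 2 / a) = (b ^ 2 + a * (1 - γ'.F X)) / a := by
      field_simp
      ring
    have h3 : 0 < 1 - (γ'.F X - b ^ 2 / a) := by
      rw [this]; exact div_pos hI ha
    linarith
  have e2 : 1 < γ.F (X + (-(b / a)) • u) := by
    rw [F_add, hX]
    have h3 : 0 < b / a := div_pos h2 ha
    have h4 : 0 < -(b / a) * dot u (γ.normal X) := by nlinarith
    have h5 : 0 ≤ (-(b / a)) ^ 2 * qf γ u := by positivity
    nlinarith
  linarith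

end Pool.Agent.Y294.CC
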