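import Pool.Agent.Y294.CC.Ray

set_option autoImplicit false

namespace Pool.Agent.Y294.CC

open Pool.Agent.Helper19.Caustic
open scoped ContDiff

/-- the determinant of the family of lines after `n` reflections -/
noncomputable def DS (E : ℕ → Ellipse) (S : Plane) (n : ℕ) (φ : ℝ) : ℝ :=
  D3 (fun φ => -(ray E S n φ).2.2) (fun φ => (ray E S n φ).2.1)
    (fun φ => (ray E S n φ).2.2 * (ray E S n φ).1.1 - (ray E S n φ).2.1 * (ray E S n φ).1.2) φ

/-- the contribution of the reflection number `n + 1` -/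
noncomputable def wS (E : ℕ → Ellipse) (S : Plane) (n : ℕ) (φ : ℝ) : ℝ :=
  6 * ((E n).p * (E n).r - (E n).q ^ 2) * (deriv (fun φ => (ray E S (n + 1) φ).1.1) φ ^ 2 +
    deriv (fun φ => (ray E S (n + 1) φ).1.2) φ ^ 2) /
    (((E n).normal (ray E S (n + 1) φ).1).1 ^ 2 + ((E n).normal (ray E S (n + 1) φ).1).2 ^ 2) ^ 2

theorem DS_succ {E : ℕ → Ellipse} {S : Plane} (hE : Hyp E S) {n : ℕ} (h : Good E S n) (φ : ℝ) :
    DS E S (n + 1) φ = DS E S n φ + wS E S n φ * deriv (JJ (E n) S) φ := by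
  have h' := good_succ' hE h
  have hT := two_le (TT_smooth hE h)
  have a1 := two_le h.sx1
  have a2 := two_le h.sx2
  have b1 := two_le h.su1
  have b2 := two_le h.su2
  have c1 := two_le h'.sx1
  have c2 := two_le h'.sx2
  have d1 := two_le h'.su1
  have d2 := two_le h'.su2
  obtain ⟨x1, ex1⟩ : ∃ x1 : ℝ → ℝ, x1 = fun φ => (ray E S (n + 1) φ).1.1 - (E n).centre.1 :=
    ⟨_, rfl⟩
  obtain ⟨x2, ex2⟩ : ∃ x2 : ℝ → ℝ, x2 = fun φ => (ray E S (n + 1) φ).1.2 - (E n).centre.2 :=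
    ⟨_, rfl⟩
  have hx1 : ContDiff ℝ 2 x1 := by rw [ex1]; exact c1.sub contDiff_const
  have hx2 : ContDiff ℝ 2 x2 := by rw [ex2]; exact c2.sub contDiff_const
  have hγ : ∀ t, (E n).p * x1 t ^ 2 + 2 * (E n).q * x1 t * x2 t + (E n).r * x2 t ^ 2 = 1 := by
    intro t
    have := F_succ' hE h t
    rw [ex1, ex2]
    exact this
  obtain ⟨n1, en1⟩ : ∃ n1 : ℝ → ℝ, n1 = fun t => (E n).p * x1 t + (E n).q * x2 t := ⟨_, rfl⟩
  obtain ⟨n2, en2⟩ : ∃ n2 : ℝ → ℝ, n2 = fun t => (E n).q * x1 t + (E n).r * x2 t := ⟨_, rfl⟩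
  have fn1 : ∀ t, ((E n).normal (ray E S (n + 1) t).1).1 = n1 t := by
    intro t; rw [en1, ex1, ex2]; rfl
  have fn2 : ∀ t, ((E n).normal (ray E S (n + 1) t).1).2 = n2 t := by
    intro t; rw [en2, ex1, ex2]; rfl
  have eJ : JJ (E n) S = fun t => (ray E S n t).2.1 * n1 t + (ray E S n t).2.2 * n2 t := by
    funext t
    rw [← dot_succ' hE h t, ← fn1, ← fn2]
    rfl
  have ev1 : (fun t => (ray E S (n + 1) t).2.1) = fun t => (ray E S n t).2.1 -
      2 * JJ (E n) S t / (n1 t ^ 2 + n2 t ^ 2) * n1 t := by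
    funext t
    rw [← dot_succ' hE h t, ← fn1, ← fn2, ray_succ_snd']
    simp only [reflect, dot, Prod.fst_sub, Prod.smul_fst, smul_eq_mul, sq]
  have ev2 : (fun t => (ray E S (n + 1) t).2.2) = fun t => (ray E S n t).2.2 -
      2 * JJ (E n) S t / (n1 t ^ 2 + n2 t ^ 2) * n2 t := by
    funext t
    rw [← dot_succ' hE h t, ← fn1, ← fn2, ray_succ_snd']
    simp only [reflect, dot, Prod.snd_sub, Prod.smul_snd, smul_eq_mul, sq]
  have key := reflect_step (E n).p (E n).q (E n).r (E n).hdet hx1 hx2 b1 b2 hγ h.unit n1 n2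
    (JJ (E n) S) _ _ en1 en2 eJ ev1 ev2 φ
  have s1 : DS E S (n + 1) φ = D3 (fun t => -(ray E S (n + 1) t).2.2)
      (fun t => (ray E S (n + 1) t).2.1) (fun t => (ray E S (n + 1) t).2.2 * x1 t -
        (ray E S (n + 1) t).2.1 * x2 t) φ := by
    rw [← D3_shift d2.neg d1 ((d2.mul hx1).sub (d1.mul hx2)) (-(E n).centre.1)
      (-(E n).centre.2)]
    unfold DS
    congr 1
    funext t
    rw [ex1, ex2]
    ring
  have s2 : D3 (fun t => -(ray E S n t).2.2)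
      (fun t => (ray E S n t).2.1) (fun t => (ray E S n t).2.2 * x1 t -
        (ray E S n t).2.1 * x2 t) φ = DS E S n φ := by
    unfold DS
    rw [← D3_shift b2.neg b1 ((b2.mul a1).sub (b1.mul a2)) ((E n).centre.1) ((E n).centre.2)]
    congr 1
    funext t
    rw [ex1, ex2]
    simp only [ray_succ_fst' hE h t, Prod.fst_add, Prod.snd_add, Prod.smul_fst, Prod.smul_snd,
      smul_eq_mul]
    ring
  rw [s1, key, s2]
  have t1 : deriv x1 φ = deriv (fun φ => (ray E S (n + 1) φ).1.1) φ := by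
    rw [ex1, deriv_sub_const]
  have t2 : deriv x2 φ = deriv (fun φ => (ray E S (n + 1) φ).1.2) φ := by
    rw [ex2, deriv_sub_const]
  unfold wS
  rw [t1, t2, fn1, fn2]

theorem DS_zero (E : ℕ → Ellipse) (S : Plane) (φ : ℝ) : DS E S 0 φ = 0 := by
  have h := DD_zero (E 0) S φ
  exact h

theorem wS_nonneg (E : ℕ → Ellipse) (S : Plane) (n : ℕ) (φ : ℝ) : 0 ≤ wS E S n φ := by
  unfold wS
  have := (E n).hdet
  positivity

theorem wS_zero_pos {E : ℕ → Ellipse} {S : Plane} (hE : Hyp E S) (φ : ℝ) : 0 < wS E S 0 φ := by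
  have h := ww_zero_pos (γ := E 0) (hE.ins 0) φ
  exact h

/-- the derivative of Joachimsthal's integral of the first ellipse (up to a factor) -/
noncomputable def G0 (E : ℕ → Ellipse) (S : Plane) (φ : ℝ) : ℝ :=
  cA (E 0) S * Real.sin (2 * φ) + cB (E 0) S * Real.cos (2 * φ)

theorem cAB_conf {γ γ' : Ellipse} (h : Confocal γ γ') (S : Plane) :
    cA γ' S = dd γ' / dd γ * cA γ S ∧ cB γ' S = dd γ' / dd γ * cB γ S := by
  obtain ⟨μ, hc, hp, hr, hq⟩ := conf_data h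
  have h1 := (dd_pos γ).ne'
  have h2 := (dd_pos γ').ne'
  have e1 : γ'.p = (γ.p / dd γ + μ) * dd γ' := by rw [← hp, div_mul_cancel₀ _ h2]
  have e2 : γ'.r = (γ.r / dd γ + μ) * dd γ' := by rw [← hr, div_mul_cancel₀ _ h2]
  have e3 : γ'.q = (γ.q / dd γ) * dd γ' := by rw [← hq, div_mul_cancel₀ _ h2]
  have f1 : cA γ' S = -(dd γ' * ((S.1 - γ'.centre.1) ^ 2 - (S.2 - γ'.centre.2) ^ 2) +
    γ'.p - γ'.r) := rfl
  have f2 : cA γ S = -(dd γ * ((S.1 - γ.centre.1) ^ 2 - (S.2 - γ.centre.2) ^ 2) +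
    γ.p - γ.r) := rfl
  have f3 : cB γ' S = 2 * (dd γ' * ((S.1 - γ'.centre.1) * (S.2 - γ'.centre.2)) + γ'.q) := rfl
  have f4 : cB γ S = 2 * (dd γ * ((S.1 - γ.centre.1) * (S.2 - γ.centre.2)) + γ.q) := rfl
  constructor
  · rw [f1, f2, hc, e1, e2]
    field_simp
    ring
  · rw [f3, f4, hc, e3]
    field_simp

theorem JJ_deriv_conf {E : ℕ → Ellipse} {S : Plane} (hE : Hyp E S) (n : ℕ) (φ : ℝ) :
    deriv (JJ (E n) S) φ = dd (E n) / (2 * dd (E 0) * JJ (E n) S φ) * G0 E S φ := by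
  have h := JJ_deriv (E n) (hE.ins n) φ
  obtain ⟨h1, h2⟩ := cAB_conf (hE.conf n) S
  have hJ := (JJ_pos (E n) (hE.ins n) φ).ne'
  have h0 := (dd_pos (E 0)).ne'
  rw [h1, h2] at h
  rw [← mul_right_inj' (mul_ne_zero two_ne_zero hJ), h]
  unfold G0
  field_simp

theorem wS_smooth {E : ℕ → Ellipse} {S : Plane} (hE : Hyp E S) (n : ℕ) :
    ContDiff ℝ ∞ (wS E S n) := by
  have h := good' hE n
  have h' := good_succ' hE h
  have a1 := h'.sx1
  have a2 := h'.sx2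
  have d1 := smooth_deriv a1
  have d2 := smooth_deriv a2
  have hν : ∀ φ, 0 < ((E n).normal (ray E S (n + 1) φ).1).1 ^ 2 +
      ((E n).normal (ray E S (n + 1) φ).1).2 ^ 2 := fun φ => normal_sq_pos (E n) (F_succ' hE h φ)
  have kn1 : ContDiff ℝ ∞ (fun φ => ((E n).normal (ray E S (n + 1) φ).1).1) := by
    unfold Ellipse.normal; fun_prop
  have kn2 : ContDiff ℝ ∞ (fun φ => ((E n).normal (ray E S (n + 1) φ).1).2) := by
    unfold Ellipse.normal; fun_prop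
  unfold wS
  refine ContDiff.div (by fun_prop) (by fun_prop) (fun φ => (pow_pos (hν φ) 2).ne')

/-- the weight of the reflection number `n + 1` -/
noncomputable def wt (E : ℕ → Ellipse) (S : Plane) (n : ℕ) (φ : ℝ) : ℝ :=
  wS E S n φ * (dd (E n) / (2 * dd (E 0) * JJ (E n) S φ))

theorem wt_smooth {E : ℕ → Ellipse} {S : Plane} (hE : Hyp E S) (n : ℕ) :
    ContDiff ℝ ∞ (wt E S n) := by
  have h1 := wS_smooth hE n
  have h2 := JJ_smooth (E n) (hE.ins n)
  refine h1.mul (ContDiff.div contDiff_const (by fun_prop) (fun φ => ?_))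
  have hJ := JJ_pos (E n) (hE.ins n) φ
  have h0 := dd_pos (E 0)
  positivity

theorem wt_factor_pos {E : ℕ → Ellipse} {S : Plane} (hE : Hyp E S) (n : ℕ) (φ : ℝ) :
    0 < dd (E n) / (2 * dd (E 0) * JJ (E n) S φ) := by
  have hJ := JJ_pos (E n) (hE.ins n) φ
  have h0 := dd_pos (E 0)
  have h1 := dd_pos (E n)
  positivity

/-- **Key formula.** -/
theorem DS_eq {E : ℕ → Ellipse} {S : Plane} (hE : Hyp E S) (n : ℕ) :
    ∃ W : ℝ → ℝ, ContDiff ℝ ∞ W ∧ (∀ φ, 0 < W φ) ∧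
      ∀ φ, DS E S (n + 1) φ = W φ * G0 E S φ := by
  induction n with
  | zero =>
    refine ⟨wt E S 0, wt_smooth hE 0, fun φ => mul_pos (wS_zero_pos hE φ)
      (wt_factor_pos hE 0 φ), fun φ => ?_⟩
    rw [DS_succ hE (good' hE 0), DS_zero, zero_add, JJ_deriv_conf hE]
    unfold wt
    ring
  | succ n ih =>
    obtain ⟨W, hs, hW, h⟩ := ih
    refine ⟨fun φ => W φ + wt E S (n + 1) φ, hs.add (wt_smooth hE (n + 1)),
      fun φ => add_pos_of_pos_of_nonneg (hW φ) (mul_nonneg (wS_nonneg _ _ _ _)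
        (wt_factor_pos hE _ φ).le), fun φ => ?_⟩
    rw [DS_succ hE (good' hE (n + 1)), h, JJ_deriv_conf hE]
    unfold wt
    ring

end Pool.Agent.Y294.CC
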