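import Pool.Agent.Y294.CC.Main

/-!
# The location of the cusps
-/

set_option autoImplicit false

namespace Pool.Agent.Y294.CC

open Pool.Agent.Helper19.Caustic
open scoped ContDiff

/-- The point with homogeneous coordinates `w = (x : y : z)` lies on the conic `C_t` confocal to the
ellipse `γ`. For `γ : x² / a² + y² / b² = 1` this is the conic `x² / (a² + t) + y² / (b² + t) = 1`,
with denominators cleared: `(b² + t) x² + (a² + t) y² = (a² + t) (b² + t)`, the double line `y = 0`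
for `t = -b²` included. In general, with `d = p r - q²` and the coordinates `x, y` relative to the
centre: `(p / d + t) x² + 2 (q / d) x y + (r / d + t) y² = (p / d + t) (r / d + t) - (q / d)²`. -/
def OnConic (γ : Ellipse) (t : ℝ) (w : Fin 3 → ℝ) : Prop :=
  (γ.p / dd γ + t) * (w 0 - γ.centre.1 * w 2) ^ 2 +
      2 * (γ.q / dd γ) * (w 0 - γ.centre.1 * w 2) * (w 1 - γ.centre.2 * w 2) +
      (γ.r / dd γ + t) * (w 1 - γ.centre.2 * w 2) ^ 2 =
    ((γ.p / dd γ + t) * (γ.r / dd γ + t) - (γ.q / dd γ) ^ 2) * w 2 ^ 2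

/-- The line `l 0 x + l 1 y + l 2 = 0` touches the conic `C_t` confocal to `γ`. For
`γ : x² / a² + y² / b² = 1` the condition is `(a² + t) (l 0)² + (b² + t) (l 1)² = (l 2)²`. -/
def Touches (γ : Ellipse) (t : ℝ) (l : Fin 3 → ℝ) : Prop :=
  (γ.r / dd γ + t) * l 0 ^ 2 - 2 * (γ.q / dd γ) * l 0 * l 1 + (γ.p / dd γ + t) * l 1 ^ 2 =
    (l 0 * γ.centre.1 + l 1 * γ.centre.2 + l 2) ^ 2

theorem II_scaled (δ : Ellipse) (X u : Plane) : II δ X u / dd δ = (δ.p / dd δ) * u.1 ^ 2 +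
      2 * (δ.q / dd δ) * u.1 * u.2 + (δ.r / dd δ) * u.2 ^ 2 -
      (u.1 * (X.2 - δ.centre.2) - u.2 * (X.1 - δ.centre.1)) ^ 2 := by
  have h := (dd_pos δ).ne'
  rw [div_eq_iff h]
  have e1 : δ.p / dd δ * dd δ = δ.p := div_mul_cancel₀ _ h
  have e2 : δ.q / dd δ * dd δ = δ.q := div_mul_cancel₀ _ h
  have e3 : δ.r / dd δ * dd δ = δ.r := div_mul_cancel₀ _ h
  have e4 : ((δ.p / dd δ) * u.1 ^ 2 +
    2 * (δ.q / dd δ) * u.1 * u.2 + (δ.r / dd δ) * u.2 ^ 2 -
    (u.1 * (X.2 - δ.centre.2) - u.2 * (X.1 - δ.centre.1)) ^ 2) * dd δ =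
    (δ.p / dd δ * dd δ) * u.1 ^ 2 + 2 * (δ.q / dd δ * dd δ) * u.1 * u.2 +
    (δ.r / dd δ * dd δ) * u.2 ^ 2 -
    (u.1 * (X.2 - δ.centre.2) - u.2 * (X.1 - δ.centre.1)) ^ 2 * dd δ := by ring
  rw [e4, e1, e2, e3]
  simp only [II, dot, qf, Ellipse.normal, Ellipse.F, dd]
  ring

/-- all the lines of a ray touch the same confocal conic -/
theorem touches_line {E : ℕ → Ellipse} {S : Plane} (hE : Hyp E S) (n : ℕ) (φ : ℝ) :
    Touches (E 0) (-(II (E 0) S (Real.cos φ, Real.sin φ) / dd (E 0))) (line E S n φ) := by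
  have h := good' hE n
  have h1 := h.inv 0 φ
  have h2 := h.unit φ
  have h3 := II_scaled (E 0) (ray E S n φ).1 (ray E S n φ).2
  rw [h1] at h3
  unfold Touches
  simp only [line, lineOf, Matrix.cons_val_zero, Matrix.cons_val_one, Matrix.cons_val]
  rw [h3]
  linear_combination (-(((E 0).p / dd (E 0)) * (ray E S n φ).2.1 ^ 2 +
      2 * ((E 0).q / dd (E 0)) * (ray E S n φ).2.1 * (ray E S n φ).2.2 +
      ((E 0).r / dd (E 0)) * (ray E S n φ).2.2 ^ 2 -
      ((ray E S n φ).2.1 * ((ray E S n φ).1.2 - (E 0).centre.2) -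
        (ray E S n φ).2.2 * ((ray E S n φ).1.1 - (E 0).centre.1)) ^ 2)) * h2

/-- the source lies on the confocal conic touched by a bisector -/
theorem onConic_source (γ : Ellipse) (S : Plane) (φ : ℝ)
    (h : cA γ S * Real.sin (2 * φ) + cB γ S * Real.cos (2 * φ) = 0) :
    OnConic γ (-(II γ S (Real.cos φ, Real.sin φ) / dd γ)) ![S.1, S.2, 1] := by
  have hd := dd_pos γ
  have hd' := hd.ne'
  rw [II_scaled]
  unfold OnConic
  simp only [Matrix.cons_val_zero, Matrix.cons_val_one, Matrix.cons_val]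
  have e1 : γ.p = γ.p / dd γ * dd γ := (div_mul_cancel₀ _ hd').symm
  have e2 : γ.q = γ.q / dd γ * dd γ := (div_mul_cancel₀ _ hd').symm
  have e3 : γ.r = γ.r / dd γ * dd γ := (div_mul_cancel₀ _ hd').symm
  have f2 : cA γ S = -(dd γ * ((S.1 - γ.centre.1) ^ 2 - (S.2 - γ.centre.2) ^ 2) +
    γ.p - γ.r) := rfl
  have f4 : cB γ S = 2 * (dd γ * ((S.1 - γ.centre.1) * (S.2 - γ.centre.2)) + γ.q) := rfl
  have hcs := Real.cos_sq_add_sin_sq φ
  rw [Real.sin_two_mul, Real.cos_two_mul', f2, f4] at h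
  set P := γ.p / dd γ
  set Q := γ.q / dd γ
  set R := γ.r / dd γ
  set x := S.1 - γ.centre.1
  set y := S.2 - γ.centre.2
  set c := Real.cos φ
  set s := Real.sin φ
  have hK : c * s * (R - P - x ^ 2 + y ^ 2) + (Q + x * y) * (c ^ 2 - s ^ 2) = 0 := by
    have h4 : dd γ * 2 * (c * s * (R - P - x ^ 2 + y ^ 2) + (Q + x * y) * (c ^ 2 - s ^ 2)) = 0 := by
      rw [← h]
      rw [e1, e2, e3]
      ring
    exact (mul_eq_zero.1 h4).resolve_left (by positivity)
  obtain ⟨t, ht⟩ : ∃ t, t = -(P * c ^ 2 + 2 * Q * c * s + R * s ^ 2 - (c * y - s * x) ^ 2) :=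
    ⟨_, rfl⟩
  have g1 : (P - y ^ 2 + t) * c + (Q + x * y) * s = 0 := by
    rw [ht]
    linear_combination (-s) * hK + (-(P * c + Q * s - y ^ 2 * c + x * y * s)) * hcs
  have g2 : (Q + x * y) * c + (R - x ^ 2 + t) * s = 0 := by
    rw [ht]
    linear_combination c * hK + (-(Q * c + R * s + x * y * c - x ^ 2 * s)) * hcs
  have hdet : (P - y ^ 2 + t) * (R - x ^ 2 + t) - (Q + x * y) ^ 2 = 0 := by
    linear_combination (-((P - y ^ 2 + t) * (R - x ^ 2 + t) - (Q + x * y) ^ 2)) * hcs +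
      (c * (R - x ^ 2 + t) - s * (Q + x * y)) * g1 + (s * (P - y ^ 2 + t) - c * (Q + x * y)) * g2
  have hx : (S.1 - γ.centre.1 * 1) = x := by rw [mul_one]
  have hy : (S.2 - γ.centre.2 * 1) = y := by rw [mul_one]
  rw [hx, hy, ← ht]
  linear_combination -hdet

/-- Lagrange's identity for a symmetric form -/
theorem gram_identity (A B C m : ℝ) (a0 a1 a2 b0 b1 b2 : ℝ) (hm : m = A * C - B ^ 2)
    (h1 : A * a0 ^ 2 - 2 * B * a0 * a1 + C * a1 ^ 2 = a2 ^ 2)
    (h2 : A * a0 * b0 - B * (a0 * b1 + a1 * b0) + C * a1 * b1 = a2 * b2) :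
    C * (a1 * b2 - a2 * b1) ^ 2 + 2 * B * (a1 * b2 - a2 * b1) * (a2 * b0 - a0 * b2) +
      A * (a2 * b0 - a0 * b2) ^ 2 = m * (a0 * b1 - a1 * b0) ^ 2 := by
  rw [hm]
  linear_combination (b2 ^ 2 - A * b0 ^ 2 + 2 * B * b0 * b1 - C * b1 ^ 2) * h1 +
    (A * a0 * b0 - B * (a0 * b1 + a1 * b0) + C * a1 * b1 - a2 * b2) * h2

/-- at a bisector the point of contact with the envelope lies on the confocal conic -/
theorem onConic_caustic {E : ℕ → Ellipse} {S : Plane} (hE : Hyp E S) (n : ℕ) (φ : ℝ)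
    (h : cA (E 0) S * Real.sin (2 * φ) + cB (E 0) S * Real.cos (2 * φ) = 0) :
    OnConic (E 0) (-(II (E 0) S (Real.cos φ, Real.sin φ) / dd (E 0))) (caustic E S n φ) := by
  have g := good' hE n
  have hl := l3_smooth' hE n
  have D0 := diff_of g.su2.neg φ
  have D1 := diff_of g.su1 φ
  have D2 := diff_of hl φ
  have DI := (((II_deriv (E 0) S φ).div_const (dd (E 0))).neg)
  rw [h] at DI
  have key : ∀ t, ((E 0).r / dd (E 0) + -(II (E 0) S (Real.cos t, Real.sin t) / dd (E 0))) *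
      (-(ray E S n t).2.2 * -(ray E S n t).2.2) -
      2 * ((E 0).q / dd (E 0)) * (-(ray E S n t).2.2 * (ray E S n t).2.1) +
      ((E 0).p / dd (E 0) + -(II (E 0) S (Real.cos t, Real.sin t) / dd (E 0))) *
      ((ray E S n t).2.1 * (ray E S n t).2.1) -
      (-(ray E S n t).2.2 * (E 0).centre.1 + (ray E S n t).2.1 * (E 0).centre.2 + l3S E S n t) *
      (-(ray E S n t).2.2 * (E 0).centre.1 + (ray E S n t).2.1 * (E 0).centre.2 + l3S E S n t) =
      0 := by
    intro t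
    have ht := touches_line hE n t
    unfold Touches at ht
    rw [line_eq'] at ht
    simp only [Matrix.cons_val_zero, Matrix.cons_val_one, Matrix.cons_val] at ht
    linear_combination ht
  have DL := ((D0.mul_const (E 0).centre.1).add (D1.mul_const (E 0).centre.2)).add D2
  have DT := ((((DI.const_add ((E 0).r / dd (E 0))).mul (D0.mul D0)).sub
    ((D0.mul D1).const_mul (2 * ((E 0).q / dd (E 0))))).add
    ((DI.const_add ((E 0).p / dd (E 0))).mul (D1.mul D1))).sub (DL.mul DL)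
  have D := (DT.congr_of_eventuallyEq (f₁ := fun _ => (0 : ℝ))
    (Filter.Eventually.of_forall (fun t => (key t).symm))).unique (hasDerivAt_const φ (0 : ℝ))
  simp only [Pi.add_apply, Pi.mul_apply, Pi.neg_apply] at D
  rw [caustic_eq' hE n φ]
  unfold OnConic
  simp only [Matrix.cons_val_zero, Matrix.cons_val_one, Matrix.cons_val]
  have G := gram_identity
    ((E 0).r / dd (E 0) + -(II (E 0) S (Real.cos φ, Real.sin φ) / dd (E 0))) ((E 0).q / dd (E 0))
    ((E 0).p / dd (E 0) + -(II (E 0) S (Real.cos φ, Real.sin φ) / dd (E 0))) _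
    (-(ray E S n φ).2.2) (ray E S n φ).2.1
    (-(ray E S n φ).2.2 * (E 0).centre.1 + (ray E S n φ).2.1 * (E 0).centre.2 + l3S E S n φ)
    (deriv (fun φ => -(ray E S n φ).2.2) φ) (deriv (fun φ => (ray E S n φ).2.1) φ)
    (deriv (fun φ => -(ray E S n φ).2.2) φ * (E 0).centre.1 +
      deriv (fun φ => (ray E S n φ).2.1) φ * (E 0).centre.2 + deriv (l3S E S n) φ)
    rfl (by linear_combination key φ) (by linear_combination (1 / 2) * D)
  linear_combination G

theorem line_congr {E E' : ℕ → Ellipse} {n : ℕ} (h : ∀ k < n, E k = E' k) (S : Plane) :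
    line E S n = line E' S n := by
  funext φ
  simp only [line, ray_congr h S φ n le_rfl]

/-- the location of the cusps -/
theorem main_loc (n : ℕ) (hn : 1 ≤ n) (E : ℕ → Ellipse) (hE : ∀ k < n, Confocal (E 0) (E k))
    (S : Plane) (hS : ∀ k < n, S ∈ (E k).inside) (φ : ℝ) (hφ : IsCusp E S n φ) :
    ∃ t : ℝ, Touches (E 0) t (lineOf S (Real.cos φ, Real.sin φ)) ∧
      Touches (E 0) t (line E S n φ) ∧
      OnConic (E 0) t ![S.1, S.2, 1] ∧ OnConic (E 0) t (caustic E S n φ) := by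
  obtain ⟨E', hE'⟩ : ∃ E' : ℕ → Ellipse, E' = fun k => if k < n then E k else E 0 := ⟨_, rfl⟩
  have hk : ∀ k < n, E k = E' k := by
    intro k hk
    rw [hE']
    simp only [hk, if_true]
  have h0 : E 0 = E' 0 := hk 0 (by omega)
  have hyp : Hyp E' S := by
    refine ⟨fun k => ?_, fun k => ?_⟩
    · rw [← h0, hE']
      by_cases h : k < n
      · simp only [h, if_true]
        exact hE k h
      · simp only [h, if_false]
        exact Confocal.refl' _
    · rw [hE']
      by_cases h : k < n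
      · simp only [h, if_true]
        exact hS k h
      · simp only [h, if_false]
        exact hS 0 (by omega)
  have hc : caustic E S n = caustic E' S n := caustic_congr hk S
  have c1 : IsCusp E S n φ ↔ IsCusp E' S n φ := by
    unfold IsCusp
    rw [hc]
  have hz := (isCusp_iff' hyp hn φ).1 (c1.1 hφ)
  rw [hc, line_congr hk S, h0]
  exact ⟨_, touches_line hyp 0 φ, touches_line hyp n φ, onConic_source (E' 0) S φ hz,
    onConic_caustic hyp n φ hz⟩

end Pool.Agent.Y294.CC
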