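import Pool.Agent.Y294.CC.Nz

set_option autoImplicit false

namespace Pool.Agent.Y294.CC

open Pool.Agent.Helper19.Caustic
open scoped ContDiff

theorem caustic_fun' {E : ℕ → Ellipse} {S : Plane} (hE : Hyp E S) (n : ℕ) :
    caustic E S n = fun φ => ![(ray E S n φ).2.1 * deriv (l3S E S n) φ -
        l3S E S n φ * deriv (fun φ => (ray E S n φ).2.1) φ,
      l3S E S n φ * deriv (fun φ => -(ray E S n φ).2.2) φ -
        -(ray E S n φ).2.2 * deriv (l3S E S n) φ,
      -(ray E S n φ).2.2 * deriv (fun φ => (ray E S n φ).2.1) φ -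
        (ray E S n φ).2.1 * deriv (fun φ => -(ray E S n φ).2.2) φ] :=
  funext (caustic_eq' hE n)

theorem caustic_smooth' {E : ℕ → Ellipse} {S : Plane} (hE : Hyp E S) (n : ℕ) :
    ContDiff ℝ ∞ (caustic E S n) := by
  have h := good' hE n
  have b1 := h.su1
  have b2 := h.su2.neg
  have b3 := l3_smooth' hE n
  have d1 := smooth_deriv b1
  have d2 := smooth_deriv b2
  have d3 := smooth_deriv b3
  rw [caustic_fun' hE n, contDiff_pi]
  intro i
  fin_cases i
  · exact (b1.mul d3).sub (b3.mul d1)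
  · exact (b3.mul d2).sub (b2.mul d3)
  · exact (b2.mul d1).sub (b1.mul d2)

theorem isCusp_iff_DS {E : ℕ → Ellipse} {S : Plane} (hE : Hyp E S) (n : ℕ) (φ : ℝ) :
    IsCusp E S n φ ↔ DS E S n φ = 0 := by
  have h := good' hE n
  have h0 : -(ray E S n φ).2.2 ≠ 0 ∨ (ray E S n φ).2.1 ≠ 0 := by
    by_contra hh
    push Not at hh
    have := h.unit φ
    rw [hh.2, neg_eq_zero.1 hh.1] at this
    norm_num at this
  exact cusp_iff_D3 (two_le h.su2.neg) (two_le h.su1) (two_le (l3_smooth' hE n)) φ h0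

theorem isCusp_iff' {E : ℕ → Ellipse} {S : Plane} (hE : Hyp E S) {n : ℕ} (hn : 1 ≤ n) (φ : ℝ) :
    IsCusp E S n φ ↔ cA (E 0) S * Real.sin (2 * φ) + cB (E 0) S * Real.cos (2 * φ) = 0 := by
  obtain ⟨m, rfl⟩ : ∃ m, n = m + 1 := ⟨n - 1, by omega⟩
  rw [isCusp_iff_DS hE]
  obtain ⟨W, -, hW, h⟩ := DS_eq hE m
  rw [h φ]
  have hw := hW φ
  constructor
  · intro h1
    exact (mul_eq_zero.1 h1).resolve_left hw.ne'
  · intro h1
    change W φ * (cA (E 0) S * Real.sin (2 * φ) + cB (E 0) S * Real.cos (2 * φ)) = 0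
    rw [h1, mul_zero]

theorem ordinary' {E : ℕ → Ellipse} {S : Plane} (hE : Hyp E S)
    (hf : cA (E 0) S ≠ 0 ∨ cB (E 0) S ≠ 0)
    {n : ℕ} (hn : 1 ≤ n) (φ : ℝ) (hc : IsCusp E S n φ) :
    LinearIndependent ℝ ![caustic E S n φ, deriv (deriv (caustic E S n)) φ,
      deriv (deriv (deriv (caustic E S n))) φ] := by
  have h1 := (isCusp_iff_DS hE n φ).1 hc
  have h2 := (isCusp_iff' hE hn φ).1 hc
  obtain ⟨m, rfl⟩ : ∃ m, n = m + 1 := ⟨n - 1, by omega⟩
  obtain ⟨W, hs, hW, h⟩ := DS_eq hE m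
  have g := good' hE (m + 1)
  have hl : HasDerivAt (fun φ : ℝ => 2 * φ) 2 φ := by
    simpa using (hasDerivAt_id φ).const_mul 2
  have hG : HasDerivAt (G0 E S) (cA (E 0) S * (Real.cos (2 * φ) * 2) +
      cB (E 0) S * (-Real.sin (2 * φ) * 2)) φ :=
    (((Real.hasDerivAt_sin _).comp φ hl).const_mul (cA (E 0) S)).add
      (((Real.hasDerivAt_cos _).comp φ hl).const_mul (cB (E 0) S))
  have hne : deriv (DS E S (m + 1)) φ ≠ 0 := by
    have e : DS E S (m + 1) = fun φ => W φ * G0 E S φ := funext h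
    rw [e]
    have e2 := ((diff_of hs φ).mul hG).deriv
    have e3 : deriv (fun φ => W φ * G0 E S φ) φ = _ := e2
    have h2' : G0 E S φ = 0 := h2
    rw [e3, h2', mul_zero, zero_add]
    apply mul_ne_zero (hW φ).ne'
    intro h3
    have h4 : cA (E 0) S * Real.cos (2 * φ) - cB (E 0) S * Real.sin (2 * φ) = 0 := by linarith
    have h5 := Real.sin_sq_add_cos_sq (2 * φ)
    have h6 : cA (E 0) S ^ 2 + cB (E 0) S ^ 2 = 0 := by
      linear_combination (-(cA (E 0) S ^ 2 + cB (E 0) S ^ 2)) * h5 +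
        (cA (E 0) S * Real.cos (2 * φ) - cB (E 0) S * Real.sin (2 * φ)) * h4 +
        (cA (E 0) S * Real.sin (2 * φ) + cB (E 0) S * Real.cos (2 * φ)) * h2
    rcases hf with hf | hf
    · have : 0 < cA (E 0) S ^ 2 := by positivity
      nlinarith [sq_nonneg (cB (E 0) S)]
    · have : 0 < cB (E 0) S ^ 2 := by positivity
      nlinarith [sq_nonneg (cA (E 0) S)]
  exact semi_det g.su2.neg g.su1 (l3_smooth' hE (m + 1)) φ h1 hne (caustic_fun' hE (m + 1))

theorem four' {E : ℕ → Ellipse} {S : Plane} (hE : Hyp E S)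
    (hf : cA (E 0) S ≠ 0 ∨ cB (E 0) S ≠ 0) {n : ℕ} (hn : 1 ≤ n) : HasExactlyFourCusps E S n := by
  have : {φ | φ ∈ Set.Ico 0 (2 * Real.pi) ∧ IsCusp E S n φ} =
      {φ : ℝ | φ ∈ Set.Ico 0 (2 * Real.pi) ∧
        cA (E 0) S * Real.sin (2 * φ) + cB (E 0) S * Real.cos (2 * φ) = 0} := by
    ext φ
    simp only [Set.mem_ofPred_eq, isCusp_iff' hE hn]
  unfold HasExactlyFourCusps
  rw [this]
  exact four_zeros _ _ hf

theorem foci_iff (γ : Ellipse) (S : Plane) : S ∈ γ.foci ↔ cA γ S = 0 ∧ cB γ S = 0 := by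
  unfold cA cB
  constructor
  · rintro ⟨h1, h2⟩
    exact ⟨by linarith, by linarith⟩
  · rintro ⟨h1, h2⟩
    exact ⟨by linarith, by linarith⟩

theorem not_four {E : ℕ → Ellipse} {S : Plane} (hE : Hyp E S) (hf : S ∈ (E 0).foci)
    {n : ℕ} (hn : 1 ≤ n) : ¬ HasExactlyFourCusps E S n := by
  obtain ⟨h1, h2⟩ := (foci_iff _ _).1 hf
  have hall : ∀ φ, IsCusp E S n φ := by
    intro φ
    rw [isCusp_iff' hE hn, h1, h2]
    ring
  unfold HasExactlyFourCusps
  have : {φ | φ ∈ Set.Ico 0 (2 * Real.pi) ∧ IsCusp E S n φ} = Set.Ico 0 (2 * Real.pi) := by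
    ext φ
    simp only [Set.mem_ofPred_eq, hall φ, and_true]
  rw [this, (Set.Ico_infinite Real.two_pi_pos).encard_eq]
  exact ENat.top_ne_natCast 4

theorem four_iff {E : ℕ → Ellipse} {S : Plane} (hE : Hyp E S) {n : ℕ} (hn : 1 ≤ n) :
    HasExactlyFourCusps E S n ↔ S ∉ (E 0).foci := by
  constructor
  · intro h hf
    exact not_four hE hf hn h
  · intro hf
    apply four' hE _ hn
    by_contra hh
    push Not at hh
    exact hf ((foci_iff _ _).2 hh)

theorem ray_periodic' (E : ℕ → Ellipse) (S : Plane) (n : ℕ) (φ : ℝ) :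
    ray E S n (φ + 2 * Real.pi) = ray E S n φ := by
  induction n with
  | zero => simp only [ray, Real.cos_add_two_pi, Real.sin_add_two_pi]
  | succ n ih => simp only [ray, ih]

theorem caustic_periodic' (E : ℕ → Ellipse) (S : Plane) (n : ℕ) (φ : ℝ) :
    caustic E S n (φ + 2 * Real.pi) = caustic E S n φ := by
  have h : (fun t => line E S n (t + 2 * Real.pi)) = line E S n := by
    funext t; simp only [line, ray_periodic']
  have h2 : deriv (line E S n) (φ + 2 * Real.pi) = deriv (line E S n) φ := by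
    conv_rhs => rw [← h]
    rw [deriv_comp_add_const]
  unfold caustic
  rw [h2, congrFun h φ]

/-- the directions of the cusps -/
theorem bisects_iff (γ : Ellipse) (S A B : Plane) (hA : A ∈ γ.foci)
    (hB : A + B = (2 : ℝ) • γ.centre) (φ : ℝ) :
    Bisects S A B φ ↔ cA γ S * Real.sin (2 * φ) + cB γ S * Real.cos (2 * φ) = 0 := by
  have hB1 : B.1 = 2 * γ.centre.1 - A.1 := by
    have := congrArg Prod.fst hB
    simp only [Prod.fst_add, Prod.smul_fst, smul_eq_mul] at this
    linarith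
  have hB2 : B.2 = 2 * γ.centre.2 - A.2 := by
    have := congrArg Prod.snd hB
    simp only [Prod.snd_add, Prod.smul_snd, smul_eq_mul] at this
    linarith
  obtain ⟨h1, h2⟩ := hA
  have hd := γ.hdet
  have key : cA γ S * Real.sin (2 * φ) + cB γ S * Real.cos (2 * φ) =
      (γ.p * γ.r - γ.q ^ 2) * -(area (A - S) (Real.cos φ, Real.sin φ) *
        dot (Real.cos φ, Real.sin φ) (B - S) -
        dot (A - S) (Real.cos φ, Real.sin φ) * area (Real.cos φ, Real.sin φ) (B - S)) := by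
    rw [Real.sin_two_mul, Real.cos_two_mul']
    simp only [area, dot, Prod.fst_sub, Prod.snd_sub, hB1, hB2, cA, cB]
    linear_combination (-(2 * Real.sin φ * Real.cos φ)) * h1 +
      (2 * (Real.cos φ ^ 2 - Real.sin φ ^ 2)) * h2
  rw [key]
  unfold Bisects
  constructor
  · intro h
    rw [h]; ring
  · intro h
    have := (mul_eq_zero.1 h).resolve_left hd.ne'
    linarith

theorem foci_finite' (γ : Ellipse) : γ.foci.Finite := by
  have hd := γ.hdet
  have hfin : {z : ℂ | z ^ 2 = (⟨(γ.r - γ.p) / (γ.p * γ.r - γ.q ^ 2),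
      2 * (-γ.q / (γ.p * γ.r - γ.q ^ 2))⟩ : ℂ)}.Finite := by
    have h2 : (Polynomial.X ^ 2 - Polynomial.C (⟨(γ.r - γ.p) / (γ.p * γ.r - γ.q ^ 2),
        2 * (-γ.q / (γ.p * γ.r - γ.q ^ 2))⟩ : ℂ)) ≠ 0 :=
      Polynomial.X_pow_sub_C_ne_zero two_pos _
    refine (Polynomial.finite_setOfPred_isRoot h2).subset ?_
    intro z hz
    have hz' : z ^ 2 = _ := hz
    simp only [Set.mem_ofPred_eq, Polynomial.IsRoot, Polynomial.eval_sub, Polynomial.eval_pow,
      Polynomial.eval_X, Polynomial.eval_C]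
    rw [hz', sub_self]
  have hinj : Function.Injective (fun X : Plane =>
      (⟨X.1 - γ.centre.1, X.2 - γ.centre.2⟩ : ℂ)) := by
    intro X Y h
    have h1 := congrArg Complex.re h
    have h2 := congrArg Complex.im h
    simp only at h1 h2
    ext
    · linarith
    · linarith
  refine (hfin.preimage hinj.injOn).subset ?_
  rintro X ⟨h1, h2⟩
  change (⟨X.1 - γ.centre.1, X.2 - γ.centre.2⟩ : ℂ) ^ 2 = _
  apply Complex.ext
  · rw [pow_two, Complex.mul_re]
    simp only
    rw [eq_div_iff hd.ne']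
    linarith
  · rw [pow_two, Complex.mul_im]
    simp only
    have h3 : (X.1 - γ.centre.1) * (X.2 - γ.centre.2) = -γ.q / (γ.p * γ.r - γ.q ^ 2) := by
      rw [eq_div_iff hd.ne']
      linarith
    linarith

/-! ## Finitely many mirrors -/

theorem ray_congr {E E' : ℕ → Ellipse} {n : ℕ} (h : ∀ k < n, E k = E' k) (S : Plane) (φ : ℝ) :
    ∀ m ≤ n, ray E S m φ = ray E' S m φ := by
  intro m hm
  induction m with
  | zero => rfl
  | succ m ih => simp only [ray, ih (by omega), h m (by omega)]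

theorem caustic_congr {E E' : ℕ → Ellipse} {n : ℕ} (h : ∀ k < n, E k = E' k) (S : Plane) :
    caustic E S n = caustic E' S n := by
  have e : line E S n = line E' S n := by
    funext φ
    simp only [line, ray_congr h S φ n le_rfl]
  unfold caustic
  rw [e]

/-- **Main theorem.** -/
theorem main (n : ℕ) (hn : 1 ≤ n) (E : ℕ → Ellipse) (hE : ∀ k < n, Confocal (E 0) (E k))
    (S : Plane) (hS : ∀ k < n, S ∈ (E k).inside) :
    (IsClosedCurve E S n ∧
      ∀ φ, caustic E S n φ 2 ≠ 0 → (IsCusp E S n φ ↔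
        deriv (fun s => ((caustic E S n s 0 / caustic E S n s 2,
          caustic E S n s 1 / caustic E S n s 2) : Plane)) φ = 0)) ∧
    (HasExactlyFourCusps E S n ↔ S ∉ (E 0).foci) ∧
    (S ∉ (E 0).foci → ∀ φ, IsCusp E S n φ → IsOrdinaryCusp E S n φ) ∧
    (∀ A ∈ (E 0).foci, ∀ B : Plane, A + B = (2 : ℝ) • (E 0).centre →
      ∀ φ, IsCusp E S n φ ↔ Bisects S A B φ) := by
  -- the sequence continued by `E 0`
  obtain ⟨E', hE'⟩ : ∃ E' : ℕ → Ellipse, E' = fun k => if k < n then E k else E 0 := ⟨_, rfl⟩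
  have hk : ∀ k < n, E k = E' k := by
    intro k hk
    rw [hE']
    simp only [hk, if_true]
  have h0 : E 0 = E' 0 := hk 0 (by omega)
  have hyp : Hyp E' S := by
    refine ⟨fun k => ?_, fun k => ?_⟩
    · rw [← h0, hE']
      by_cases h : k < n
      · simp only [h, if_true]
        exact hE k h
      · simp only [h, if_false]
        exact Confocal.refl' _
    · rw [hE']
      by_cases h : k < n
      · simp only [h, if_true]
        exact hS k h
      · simp only [h, if_false]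
        exact hS 0 (by omega)
  have hc : caustic E S n = caustic E' S n := caustic_congr hk S
  have c1 : ∀ φ, IsCusp E S n φ ↔ IsCusp E' S n φ := by
    intro φ
    unfold IsCusp
    rw [hc]
  refine ⟨⟨⟨?_, ?_, ?_⟩, ?_⟩, ?_, ?_, ?_⟩
  · rw [hc]; exact caustic_smooth' hyp n
  · rw [hc]; exact caustic_ne_zero' hyp n
  · rw [hc]; exact caustic_periodic' E' S n
  · intro φ hφ
    rw [hc] at hφ ⊢
    rw [c1 φ]
    exact cusp_iff_affine ((caustic_smooth' hyp n).differentiable (by simp) φ) hφ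
  · have e : HasExactlyFourCusps E S n ↔ HasExactlyFourCusps E' S n := by
      unfold HasExactlyFourCusps
      simp only [c1]
    rw [e, h0]
    exact four_iff hyp hn
  · intro hf φ hφ
    refine ⟨hφ, ?_⟩
    rw [hc]
    refine ordinary' hyp ?_ hn φ ((c1 φ).1 hφ)
    by_contra hh
    push Not at hh
    rw [h0] at hf
    exact hf ((foci_iff _ _).2 hh)
  · intro A hA B hB φ
    rw [c1 φ, isCusp_iff' hyp hn φ]
    rw [h0] at hA hB
    exact (bisects_iff (E' 0) S A B hA hB φ).symm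

end Pool.Agent.Y294.CC
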