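import Pool.Agent.Y294.CC.Defs

set_option autoImplicit false

namespace Pool.Agent.Y294.CC

open Pool.Agent.Helper19.Caustic
open scoped ContDiff

/-- properties of the ray after `n` reflections -/
structure Good (E : ℕ → Ellipse) (S : Plane) (n : ℕ) : Prop where
  sx1 : ContDiff ℝ ∞ (fun φ => (ray E S n φ).1.1)
  sx2 : ContDiff ℝ ∞ (fun φ => (ray E S n φ).1.2)
  su1 : ContDiff ℝ ∞ (fun φ => (ray E S n φ).2.1)
  su2 : ContDiff ℝ ∞ (fun φ => (ray E S n φ).2.2)
  unit : ∀ φ, (ray E S n φ).2.1 ^ 2 + (ray E S n φ).2.2 ^ 2 = 1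
  fwd : ∀ k φ, (E k).F (ray E S n φ).1 ≤ 1 ∨ dot (ray E S n φ).2 ((E k).normal (ray E S n φ).1) ≤ 0
  inv : ∀ k φ, II (E k) (ray E S n φ).1 (ray E S n φ).2 = II (E k) S (Real.cos φ, Real.sin φ)

/-- the sequence is confocal and the source is inside -/
structure Hyp (E : ℕ → Ellipse) (S : Plane) : Prop where
  conf : ∀ k, Confocal (E 0) (E k)
  ins : ∀ k, (E k).F S < 1

theorem good_zero' {E : ℕ → Ellipse} {S : Plane} (hE : Hyp E S) : Good E S 0 where
  sx1 := (contDiff_const : ContDiff ℝ ∞ (fun _ : ℝ => S.1))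
  sx2 := (contDiff_const : ContDiff ℝ ∞ (fun _ : ℝ => S.2))
  su1 := Real.contDiff_cos
  su2 := Real.contDiff_sin
  unit := fun φ => cs_unit φ
  fwd := fun k _ => Or.inl (hE.ins k).le
  inv := fun _ _ => rfl

/-- the time of flight -/
noncomputable def TT (E : ℕ → Ellipse) (S : Plane) (n : ℕ) (φ : ℝ) : ℝ :=
  tt (E n) (ray E S n φ).1 (ray E S n φ).2

theorem Good.II_nonneg {E : ℕ → Ellipse} {S : Plane} (hE : Hyp E S) {n : ℕ} (h : Good E S n)
    (k : ℕ) (φ : ℝ) : 0 < II (E k) (ray E S n φ).1 (ray E S n φ).2 := by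
  rw [h.inv k φ]
  exact II_pos (E k) (hE.ins k) φ

theorem ray_succ_fst' {E : ℕ → Ellipse} {S : Plane} (hE : Hyp E S) {n : ℕ} (h : Good E S n)
    (φ : ℝ) : (ray E S (n + 1) φ).1 = (ray E S n φ).1 + TT E S n φ • (ray E S n φ).2 :=
  hit_eq' (E n) (h.fwd n φ) (h.II_nonneg hE n φ).le (h.unit φ)

theorem ray_succ_snd' (E : ℕ → Ellipse) (S : Plane) (n : ℕ) (φ : ℝ) :
    (ray E S (n + 1) φ).2 = reflect (ray E S n φ).2 ((E n).normal (ray E S (n + 1) φ).1) := rfl

theorem F_succ' {E : ℕ → Ellipse} {S : Plane} (hE : Hyp E S) {n : ℕ} (h : Good E S n) (φ : ℝ) :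
    (E n).F (ray E S (n + 1) φ).1 = 1 :=
  F_hit' (E n) (h.fwd n φ) (h.II_nonneg hE n φ).le (h.unit φ)

theorem dot_succ' {E : ℕ → Ellipse} {S : Plane} (hE : Hyp E S) {n : ℕ} (h : Good E S n) (φ : ℝ) :
    dot (ray E S n φ).2 ((E n).normal (ray E S (n + 1) φ).1) = JJ (E n) S φ := by
  have h1 := normal_hit' (E n) (h.fwd n φ) (h.II_nonneg hE n φ).le (h.unit φ)
  rw [h.inv n φ] at h1
  exact h1

theorem TT_eq {E : ℕ → Ellipse} {S : Plane} {n : ℕ} (h : Good E S n) (φ : ℝ) :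
    TT E S n φ = (-dot (ray E S n φ).2 ((E n).normal (ray E S n φ).1) + JJ (E n) S φ) /
      qf (E n) (ray E S n φ).2 := by
  unfold TT tt JJ
  rw [h.inv n φ]

theorem TT_smooth {E : ℕ → Ellipse} {S : Plane} (hE : Hyp E S) {n : ℕ} (h : Good E S n) :
    ContDiff ℝ ∞ (TT E S n) := by
  have h0 : TT E S n = fun φ => (-dot (ray E S n φ).2 ((E n).normal (ray E S n φ).1) +
      JJ (E n) S φ) / qf (E n) (ray E S n φ).2 := funext (TT_eq h)
  rw [h0]
  have hJ := JJ_smooth (E n) (hE.ins n)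
  have h1 := h.sx1
  have h2 := h.sx2
  have h3 := h.su1
  have h4 := h.su2
  refine ContDiff.div ?_ ?_ (fun φ => (qf_pos_unit (E n) (h.unit φ)).ne')
  · unfold dot Ellipse.normal
    fun_prop
  · unfold qf
    fun_prop

theorem good_succ' {E : ℕ → Ellipse} {S : Plane} (hE : Hyp E S) {n : ℕ} (h : Good E S n) :
    Good E S (n + 1) := by
  have hT := TT_smooth hE h
  have h1 := h.sx1
  have h2 := h.sx2
  have h3 := h.su1
  have h4 := h.su2
  have k1 : ContDiff ℝ ∞ (fun φ => (ray E S (n + 1) φ).1.1) := by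
    have : (fun φ => (ray E S (n + 1) φ).1.1) =
        fun φ => (ray E S n φ).1.1 + TT E S n φ * (ray E S n φ).2.1 := by
      funext φ; rw [ray_succ_fst' hE h]; rfl
    rw [this]; fun_prop
  have k2 : ContDiff ℝ ∞ (fun φ => (ray E S (n + 1) φ).1.2) := by
    have : (fun φ => (ray E S (n + 1) φ).1.2) =
        fun φ => (ray E S n φ).1.2 + TT E S n φ * (ray E S n φ).2.2 := by
      funext φ; rw [ray_succ_fst' hE h]; rfl
    rw [this]; fun_prop
  have hν : ∀ φ, 0 < ((E n).normal (ray E S (n + 1) φ).1).1 ^ 2 +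
      ((E n).normal (ray E S (n + 1) φ).1).2 ^ 2 := fun φ => normal_sq_pos (E n) (F_succ' hE h φ)
  have hν' : ∀ φ, dot ((E n).normal (ray E S (n + 1) φ).1)
      ((E n).normal (ray E S (n + 1) φ).1) ≠ 0 := by
    intro φ
    have := hν φ
    unfold dot
    nlinarith
  have kn1 : ContDiff ℝ ∞ (fun φ => ((E n).normal (ray E S (n + 1) φ).1).1) := by
    unfold Ellipse.normal; fun_prop
  have kn2 : ContDiff ℝ ∞ (fun φ => ((E n).normal (ray E S (n + 1) φ).1).2) := by
    unfold Ellipse.normal; fun_prop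
  have kf : ContDiff ℝ ∞ (fun φ => 2 * dot (ray E S n φ).2 ((E n).normal (ray E S (n + 1) φ).1) /
      dot ((E n).normal (ray E S (n + 1) φ).1) ((E n).normal (ray E S (n + 1) φ).1)) := by
    refine ContDiff.div ?_ ?_ hν'
    · unfold dot; fun_prop
    · unfold dot; fun_prop
  have hunit : ∀ φ, (ray E S (n + 1) φ).2.1 ^ 2 + (ray E S (n + 1) φ).2.2 ^ 2 = 1 := by
    intro φ
    rw [ray_succ_snd']
    exact reflect_unit (hν φ) (h.unit φ)
  have hdn : ∀ φ, dot (ray E S (n + 1) φ).2 ((E n).normal (ray E S (n + 1) φ).1) =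
      -JJ (E n) S φ := by
    intro φ
    rw [ray_succ_snd', dot_reflect (hν φ), dot_succ' hE h φ]
  have hinv : ∀ k φ, II (E k) (ray E S (n + 1) φ).1 (ray E S (n + 1) φ).2 =
      II (E k) S (Real.cos φ, Real.sin φ) := by
    intro k φ
    have e1 : II (E n) (ray E S (n + 1) φ).1 (ray E S (n + 1) φ).2 =
        II (E n) S (Real.cos φ, Real.sin φ) := by
      have e : II (E n) (ray E S (n + 1) φ).1 (ray E S (n + 1) φ).2 =
          dot (ray E S (n + 1) φ).2 ((E n).normal (ray E S (n + 1) φ).1) ^ 2 := by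
        unfold II
        rw [F_succ' hE h φ]; ring
      rw [e, hdn φ, neg_sq]
      exact Real.sq_sqrt (II_pos (E n) (hE.ins n) φ).le
    obtain ⟨μ, hc, hp, hr, hq⟩ := conf_data ((hE.conf n).symm'.trans' (hE.conf k))
    have e2 := II_conf hc hp hr hq (ray E S (n + 1) φ).1 (ray E S (n + 1) φ).2
    have e3 := II_conf hc hp hr hq S (Real.cos φ, Real.sin φ)
    rw [hunit φ, e1] at e2
    rw [cs_unit φ, ← e2] at e3
    have hdk := (dd_pos (E k)).ne'
    exact ((div_left_inj' hdk).1 e3).symm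
  refine ⟨k1, k2, ?_, ?_, hunit, ?_, hinv⟩
  · have : (fun φ => (ray E S (n + 1) φ).2.1) = fun φ => (ray E S n φ).2.1 -
        (2 * dot (ray E S n φ).2 ((E n).normal (ray E S (n + 1) φ).1) /
      dot ((E n).normal (ray E S (n + 1) φ).1) ((E n).normal (ray E S (n + 1) φ).1)) *
      ((E n).normal (ray E S (n + 1) φ).1).1 := rfl
    rw [this]
    exact h3.sub (kf.mul kn1)
  · have : (fun φ => (ray E S (n + 1) φ).2.2) = fun φ => (ray E S n φ).2.2 -
        (2 * dot (ray E S n φ).2 ((E n).normal (ray E S (n + 1) φ).1) /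
      dot ((E n).normal (ray E S (n + 1) φ).1) ((E n).normal (ray E S (n + 1) φ).1)) *
      ((E n).normal (ray E S (n + 1) φ).1).2 := rfl
    rw [this]
    exact h4.sub (kf.mul kn2)
  · intro k φ
    refine fwd_of ((hE.conf n).symm'.trans' (hE.conf k)) (F_succ' hE h φ) (hunit φ) ?_ ?_
    · rw [hdn φ]
      have := JJ_pos (E n) (hE.ins n) φ
      linarith
    · rw [hinv k φ]
      exact II_pos (E k) (hE.ins k) φ

theorem good' {E : ℕ → Ellipse} {S : Plane} (hE : Hyp E S) (n : ℕ) : Good E S n := by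
  induction n with
  | zero => exact good_zero' hE
  | succ n ih => exact good_succ' hE ih

end Pool.Agent.Y294.CC
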